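import Mathlib
import Pool.Agent.Lib_helper1.ZF.ProjDefs
import Pool.Agent.Lib_helper1.ZF.ProjFinal

/-!
Positive answer to Q1 of MP_90148f_lc.
-/

universe u

open Pool.Agent.ZF1

namespace Pool.Agent.Results.MP_90148f_lc.ProjectiveType

/-- In every model `V` of ZF, every amorphous set `A` whose power set `P` is dually Dedekind
infinite is of projective type. -/
theorem result (V : Type u) [Lset.Structure V] (hV : ModelsZF V) (A P : V)
    (hA : IsAmorphous A) (hP : IsPowerset P A) (hdd : ¬ IsDuallyDedekindFinite P) :
    IsOfProjectiveType A :=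
  main V hV A P hA hP hdd

end Pool.Agent.Results.MP_90148f_lc.ProjectiveType
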